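import Mathlib

/-!
# A vertex contained in no locally minimal defensive alliance
-/

set_option autoImplicit false

open SimpleGraph Finset

namespace Pool.Agent.Results.MP_b7e006_co.MissedVertex

section

variable {V : Type} [Fintype V] [DecidableEq V] (G : SimpleGraph V) [DecidableRel G.Adj]

/-- `D` is a defensive alliance of `G`: it is nonempty and `|N[v] ∩ D| ≥ |N(v) \ D|` for all
`v ∈ D`. -/
def IsDefensiveAlliance (D : Finset V) : Prop :=
  D.Nonempty ∧ ∀ v ∈ D,
    (G.neighborFinset v \ D).card ≤ ((insert v (G.neighborFinset v)) ∩ D).card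

instance (D : Finset V) : Decidable (IsDefensiveAlliance G D) := by
  unfold IsDefensiveAlliance
  infer_instance

/-- `D` is a locally minimal defensive alliance of `G`. -/
def IsLocallyMinimal (D : Finset V) : Prop :=
  IsDefensiveAlliance G D ∧ ∀ v ∈ D, ¬ IsDefensiveAlliance G (D.erase v)

instance (D : Finset V) : Decidable (IsLocallyMinimal G D) := by
  unfold IsLocallyMinimal
  infer_instance

end

/-- The graph: a clique `{4,5,6,7}` completely joined to the independent set `{1,2,3}`, and a vertex
`0` adjacent to `2` and `3`. -/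
def G8 : SimpleGraph (Fin 8) where
  Adj i j := i ≠ j ∧ ((4 ≤ i.val ∧ 1 ≤ j.val) ∨ (4 ≤ j.val ∧ 1 ≤ i.val) ∨
    (i.val = 0 ∧ (j.val = 2 ∨ j.val = 3)) ∨ (j.val = 0 ∧ (i.val = 2 ∨ i.val = 3)))
  symm := ⟨by decide⟩
  loopless := ⟨by decide⟩

instance : DecidableRel G8.Adj := by
  intro i j
  unfold G8
  infer_instance

/-- There are a graph with minimum degree `2` and a vertex of it which lies in no locally minimal
defensive alliance. -/
theorem result : ∃ (G : SimpleGraph (Fin 8)) (_ : DecidableRel G.Adj) (v : Fin 8),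
    (∀ w, 2 ≤ G.degree w) ∧ ∀ D : Finset (Fin 8), IsLocallyMinimal G D → v ∉ D := by
  refine ⟨G8, inferInstance, 0, by decide, ?_⟩
  decide +kernel

end Pool.Agent.Results.MP_b7e006_co.MissedVertex
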